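import Mathlib

/-!
# In `ℓ_p` and `L_p`, `1 < p < ∞`, `μ`-compact closed bounded convex sets are compact

If `A` is closed, bounded, convex and not compact, it contains a `δ`-separated sequence `(x_n)`. In
a uniformly convex space almost norm-minimal elements `y_n` of the convex hulls of `{x_m : m ≥ n}`
converge in norm. The `y_n` are barycentres of probability measures on `F_n = {x_m : m ≥ n}`, which
are closed sets with empty intersection, so these measures have no cluster point.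
The spaces `ℓ_p` and `L_p` are uniformly convex; this follows from a pointwise inequality.
-/

set_option autoImplicit false
set_option linter.unusedSectionVars false

open MeasureTheory Filter Set
open scoped Topology ENNReal

namespace Pool.Agent.Results.MP_5b7a98_an.MuCompact

/-- The set `A` is `μ`-compact: for every compact `K ⊆ A` the set of Borel probability measures on
`A` with barycentre in `K` is compact in the weak topology. -/
def IsMuCompact {E : Type*} [NormedAddCommGroup E] [NormedSpace ℝ E] [MeasurableSpace E]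
    [BorelSpace E] (A : Set E) : Prop :=
  ∀ K ⊆ A, IsCompact K →
    IsCompact {μ : ProbabilityMeasure A | ∫ x : A, (x : E) ∂(μ : Measure A) ∈ K}

/-- Every nonempty closed bounded convex `μ`-compact subset of `E` is compact. -/
def MuCompactSetsCompact (E : Type*) [NormedAddCommGroup E] [NormedSpace ℝ E] : Prop :=
  ∀ (_ : MeasurableSpace E) (_ : BorelSpace E) (A : Set E), A.Nonempty → IsClosed A →
    Bornology.IsBounded A → Convex ℝ A → IsMuCompact A → IsCompact A

/-- The space `ℓ_p`. -/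
abbrev EllP (p : ℝ≥0∞) : Type := lp (fun _ : ℕ => ℝ) p

/-- The space `L_p[0,1]`. -/
abbrev LP (p : ℝ≥0∞) : Type := Lp ℝ p (volume.restrict (Icc (0 : ℝ) 1))

/-! ### Uniform convexity -/

section scalar

variable {p : ℝ}

theorem abs_midpoint_lt (hp : 1 < p) {a b : ℝ} (hab : a ≠ b) :
    |(a + b) / 2| ^ p < (|a| ^ p + |b| ^ p) / 2 := by
  have hp0 : 0 < p := by linarith
  have h1 : |(a + b) / 2| ≤ (|a| + |b|) / 2 := by
    rw [abs_div, abs_two]
    have := abs_add_le a b
    linarith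
  by_cases h : |a| = |b|
  · rcases abs_eq_abs.mp h with h2 | h2
    · exact absurd h2 hab
    · have h3 : b ≠ 0 := by
        rintro rfl
        apply hab
        rw [h2, neg_zero]
      have h4 : 0 < |b| := abs_pos.mpr h3
      rw [h2, neg_add_cancel, zero_div, abs_zero, Real.zero_rpow hp0.ne']
      positivity
  · have h2 := (strictConvexOn_rpow hp).2 (mem_Ici.mpr (abs_nonneg a)) (mem_Ici.mpr (abs_nonneg b))
      h (by norm_num : (0 : ℝ) < 1 / 2) (by norm_num : (0 : ℝ) < 1 / 2) (by norm_num)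
    simp only [smul_eq_mul] at h2
    calc |(a + b) / 2| ^ p ≤ ((|a| + |b|) / 2) ^ p := by gcongr
      _ = (1 / 2 * |a| + 1 / 2 * |b|) ^ p := by congr 1; ring
      _ < 1 / 2 * |a| ^ p + 1 / 2 * |b| ^ p := h2
      _ = _ := by ring

/-- The pointwise inequality. -/
theorem scalar_ineq (hp : 1 < p) {ε : ℝ} (hε : 0 < ε) : ∃ C : ℝ, 0 < C ∧ ∀ a b : ℝ,
    |a - b| ^ p ≤ ε * (|a| ^ p + |b| ^ p) +
      C * ((|a| ^ p + |b| ^ p) / 2 - |(a + b) / 2| ^ p) := by
  have hp0 : 0 < p := by linarith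
  let φ : ℝ × ℝ → ℝ := fun z => (|z.1| ^ p + |z.2| ^ p) / 2 - |(z.1 + z.2) / 2| ^ p
  have hφ : Continuous φ := by
    have h1 : Continuous fun z : ℝ × ℝ => |z.1| ^ p :=
      (continuous_abs.comp continuous_fst).rpow_const fun _ => Or.inr hp0.le
    have h2 : Continuous fun z : ℝ × ℝ => |z.2| ^ p :=
      (continuous_abs.comp continuous_snd).rpow_const fun _ => Or.inr hp0.le
    have h3 : Continuous fun z : ℝ × ℝ => |(z.1 + z.2) / 2| ^ p :=
      (continuous_abs.comp ((continuous_fst.add continuous_snd).div_const 2)).rpow_const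
        fun _ => Or.inr hp0.le
    exact ((h1.add h2).div_const 2).sub h3
  let K : Set (ℝ × ℝ) := {z | ‖z‖ = 1 ∧ ε ≤ |z.1 - z.2| ^ p}
  have hK : IsCompact K := by
    have h1 : IsCompact (Metric.sphere (0 : ℝ × ℝ) 1) := isCompact_sphere _ _
    have h2 : IsClosed {z : ℝ × ℝ | ε ≤ |z.1 - z.2| ^ p} :=
      isClosed_le continuous_const ((continuous_abs.comp
        (continuous_fst.sub continuous_snd)).rpow_const fun _ => Or.inr hp0.le)
    have h3 : K = Metric.sphere (0 : ℝ × ℝ) 1 ∩ {z : ℝ × ℝ | ε ≤ |z.1 - z.2| ^ p} := by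
      ext z
      simp only [K, mem_inter_iff, mem_sphere_zero_iff_norm]
      rfl
    rw [h3]
    exact h1.inter_right h2
  have hφ0 : ∀ z ∈ K, 0 < φ z := by
    intro z hz
    have h1 : z.1 ≠ z.2 := by
      intro h
      have := hz.2
      rw [h, sub_self, abs_zero, Real.zero_rpow hp0.ne'] at this
      linarith
    exact sub_pos.mpr (abs_midpoint_lt hp h1)
  obtain ⟨m, hm, hmK⟩ : ∃ m : ℝ, 0 < m ∧ ∀ z ∈ K, m ≤ φ z := by
    rcases K.eq_empty_or_nonempty with h | h
    · exact ⟨1, one_pos, fun z hz => by rw [h] at hz; exact hz.elim⟩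
    · obtain ⟨z, hz, hz2⟩ := hK.exists_isMinOn h hφ.continuousOn
      exact ⟨φ z, hφ0 z hz, fun w hw => hz2 hw⟩
  have hφnn : ∀ a b : ℝ, 0 ≤ (|a| ^ p + |b| ^ p) / 2 - |(a + b) / 2| ^ p := by
    intro a b
    by_cases h : a = b
    · rw [h]
      have : (b + b) / 2 = b := by ring
      rw [this]
      apply le_of_eq; ring
    · exact (sub_pos.mpr (abs_midpoint_lt hp h)).le
  refine ⟨2 ^ p / m, by positivity, fun a b => ?_⟩
  obtain ⟨t, ht⟩ : ∃ t, t = max |a| |b| := ⟨_, rfl⟩
  have ht0 : 0 ≤ t := by rw [ht]; exact le_max_of_le_left (abs_nonneg a)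
  rcases eq_or_lt_of_le ht0 with h0 | h0
  · have ha : a = 0 := abs_eq_zero.mp (le_antisymm ((le_max_left _ _).trans (ht.symm.trans
      h0.symm).le) (abs_nonneg a))
    have hb : b = 0 := abs_eq_zero.mp (le_antisymm ((le_max_right _ _).trans (ht.symm.trans
      h0.symm).le) (abs_nonneg b))
    rw [ha, hb]
    simp [Real.zero_rpow hp0.ne']
  · have htp : 0 < t ^ p := by positivity
    have hsc : ∀ c : ℝ, |c| ^ p = t ^ p * |c / t| ^ p := fun c => by
      rw [abs_div, abs_of_pos h0, Real.div_rpow (abs_nonneg _) h0.le]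
      field_simp
    have hmain : |a / t - b / t| ^ p ≤ ε * (|a / t| ^ p + |b / t| ^ p) +
        2 ^ p / m * ((|a / t| ^ p + |b / t| ^ p) / 2 - |(a / t + b / t) / 2| ^ p) := by
      have hmax : max |a / t| |b / t| = 1 := by
        rw [abs_div, abs_div, abs_of_pos h0]
        rcases max_cases |a| |b| with h | h
        · rw [max_eq_left (div_le_div_of_nonneg_right h.2 h0.le), ← h.1, ← ht, div_self h0.ne']
        · rw [max_eq_right (div_le_div_of_nonneg_right h.2.le h0.le), ← h.1, ← ht,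
            div_self h0.ne']
      have hsum : 1 ≤ |a / t| ^ p + |b / t| ^ p := by
        rcases max_cases |a / t| |b / t| with h | h
        · rw [hmax] at h
          rw [← h.1, Real.one_rpow]
          have : 0 ≤ |b / t| ^ p := by positivity
          linarith
        · rw [hmax] at h
          rw [← h.1, Real.one_rpow]
          have : 0 ≤ |a / t| ^ p := by positivity
          linarith
      have hnn := hφnn (a / t) (b / t)
      by_cases hc : ε ≤ |a / t - b / t| ^ p
      · have hK1 : (a / t, b / t) ∈ K := by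
          refine ⟨?_, hc⟩
          rw [Prod.norm_def]
          exact hmax
        have h1 : m ≤ (|a / t| ^ p + |b / t| ^ p) / 2 - |(a / t + b / t) / 2| ^ p := hmK _ hK1
        have h2 : |a / t - b / t| ≤ 2 := by
          have h3 := abs_sub (a / t) (b / t)
          have h4 := le_max_left |a / t| |b / t|
          have h5 := le_max_right |a / t| |b / t|
          linarith
        have h6 : |a / t - b / t| ^ p ≤ 2 ^ p := by gcongr
        have h7 : 2 ^ p / m * m ≤ 2 ^ p / m *
            ((|a / t| ^ p + |b / t| ^ p) / 2 - |(a / t + b / t) / 2| ^ p) := by gcongr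
        rw [div_mul_cancel₀ _ hm.ne'] at h7
        have h8 : 0 ≤ ε * (|a / t| ^ p + |b / t| ^ p) := by positivity
        linarith
      · push Not at hc
        have h1 : ε * 1 ≤ ε * (|a / t| ^ p + |b / t| ^ p) := by gcongr
        have h2 : 0 ≤ 2 ^ p / m *
            ((|a / t| ^ p + |b / t| ^ p) / 2 - |(a / t + b / t) / 2| ^ p) := by positivity
        linarith
    have e1 : (a - b) / t = a / t - b / t := sub_div _ _ _
    have e2 : (a + b) / 2 / t = (a / t + b / t) / 2 := by ring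
    rw [hsc (a - b), hsc a, hsc b, hsc ((a + b) / 2), e1, e2]
    have := mul_le_mul_of_nonneg_left hmain htp.le
    linarith

end scalar

section uc

variable {E : Type*} [NormedAddCommGroup E] [NormedSpace ℝ E]

/-- The integrated inequality implies uniform convexity. -/
theorem uniformConvex_of_modular {p : ℝ} (hp : 1 < p)
    (h : ∀ ε : ℝ, 0 < ε → ∃ C : ℝ, 0 < C ∧ ∀ x y : E, ‖x - y‖ ^ p ≤ ε * (‖x‖ ^ p + ‖y‖ ^ p) +
      C * ((‖x‖ ^ p + ‖y‖ ^ p) / 2 - ‖(1 / 2 : ℝ) • (x + y)‖ ^ p)) : UniformConvexSpace E := by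
  have hp0 : 0 < p := by linarith
  refine ⟨fun ε hε => ?_⟩
  obtain ⟨C, hC, hCE⟩ := h (ε ^ p / 4) (by positivity)
  set η : ℝ := min (1 / 2) (ε ^ p / (2 * C)) with hη
  have hη0 : 0 < η := by positivity
  have hη1 : η ≤ 1 / 2 := min_le_left _ _
  set θ : ℝ := (1 - η) ^ (1 / p) with hθ
  have hθ1 : θ < 1 := Real.rpow_lt_one (by linarith) (by linarith) (by positivity)
  refine ⟨2 * (1 - θ), by linarith, fun x hx y hy hxy => ?_⟩
  have h1 := hCE x y
  rw [hx, hy, Real.one_rpow] at h1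
  have h2 : ε ^ p ≤ ‖x - y‖ ^ p := by gcongr
  have h3 : ‖(1 / 2 : ℝ) • (x + y)‖ ^ p ≤ 1 - η := by
    have h4 : η ≤ ε ^ p / (2 * C) := min_le_right _ _
    have h5 : C * η ≤ ε ^ p / 2 := by
      calc C * η ≤ C * (ε ^ p / (2 * C)) := by gcongr
        _ = ε ^ p / 2 := by field_simp
    have h6 : C * η ≤ C * (1 - ‖(1 / 2 : ℝ) • (x + y)‖ ^ p) := by nlinarith
    have := le_of_mul_le_mul_left h6 hC
    linarith
  have h4 : ‖(1 / 2 : ℝ) • (x + y)‖ ≤ θ := by
    have h5 := Real.rpow_le_rpow (by positivity) h3 (by positivity : 0 ≤ 1 / p)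
    rwa [← Real.rpow_mul (norm_nonneg _), mul_one_div_cancel hp0.ne', Real.rpow_one] at h5
  rw [norm_smul] at h4
  norm_num at h4
  linarith

end uc

/-- `ℓ_p` is uniformly convex for `1 < p < ∞`. -/
theorem uniformConvex_lp (p : ℝ≥0∞) [Fact (1 ≤ p)] (hp1 : 1 < p) (hp : p ≠ ∞) :
    UniformConvexSpace (lp (fun _ : ℕ => ℝ) p) := by
  have hpr : 1 < p.toReal := by
    have := (ENNReal.toReal_lt_toReal ENNReal.one_ne_top hp).mpr hp1
    simpa using this
  have hp0 : 0 < p.toReal := by linarith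
  refine uniformConvex_of_modular hpr fun ε hε => ?_
  obtain ⟨C, hC, hCs⟩ := scalar_ineq hpr hε
  refine ⟨C, hC, fun x y => ?_⟩
  have hs : ∀ z : lp (fun _ : ℕ => ℝ) p, Summable fun i => ‖z i‖ ^ p.toReal :=
    fun z => (lp.memℓp z).summable hp0
  rw [lp.norm_rpow_eq_tsum hp0, lp.norm_rpow_eq_tsum hp0, lp.norm_rpow_eq_tsum hp0,
    lp.norm_rpow_eq_tsum hp0, ← (hs x).tsum_add (hs y), ← tsum_mul_left, ← tsum_div_const,
    ← (((hs x).add (hs y)).div_const 2).tsum_sub (hs _), ← tsum_mul_left,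
    ← (((hs x).add (hs y)).mul_left ε).tsum_add
      (((((hs x).add (hs y)).div_const 2).sub (hs _)).mul_left C)]
  refine (hs _).tsum_le_tsum (fun i => ?_) ((((hs x).add (hs y)).mul_left ε).add
    (((((hs x).add (hs y)).div_const 2).sub (hs _)).mul_left C))
  have h1 := hCs (x i) (y i)
  have e1 : ‖(x - y) i‖ = |x i - y i| := rfl
  have e2 : ‖((1 / 2 : ℝ) • (x + y)) i‖ = |(x i + y i) / 2| := by
    rw [Real.norm_eq_abs]
    congr 1
    change (1 / 2 : ℝ) * (x i + y i) = _
    ring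
  rw [e1, e2, Real.norm_eq_abs, Real.norm_eq_abs]
  exact h1

/-- `L_p` is uniformly convex for `1 < p < ∞`. -/
theorem uniformConvex_Lp {Ω : Type*} [MeasurableSpace Ω] (μ : Measure Ω) (p : ℝ≥0∞)
    [Fact (1 ≤ p)] (hp1 : 1 < p) (hp : p ≠ ∞) : UniformConvexSpace (Lp ℝ p μ) := by
  have hpr : 1 < p.toReal := by
    have := (ENNReal.toReal_lt_toReal ENNReal.one_ne_top hp).mpr hp1
    simpa using this
  have hp0 : 0 < p.toReal := by linarith
  have hpz : p ≠ 0 := (zero_lt_one.trans hp1).ne'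
  have hnorm : ∀ z : Lp ℝ p μ, ‖z‖ ^ p.toReal = ∫ ω, |z ω| ^ p.toReal ∂μ := by
    intro z
    rw [Lp.norm_def, (Lp.memLp z).eLpNorm_eq_integral_rpow_norm hpz hp,
      ENNReal.toReal_ofReal (by positivity), ← Real.rpow_mul (by positivity),
      inv_mul_cancel₀ hp0.ne', Real.rpow_one]
    rfl
  have hint : ∀ z : Lp ℝ p μ, Integrable (fun ω => |z ω| ^ p.toReal) μ := fun z =>
    (Lp.memLp z).integrable_norm_rpow hpz hp
  refine uniformConvex_of_modular hpr fun ε hε => ?_
  obtain ⟨C, hC, hCs⟩ := scalar_ineq hpr hε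
  refine ⟨C, hC, fun x y => ?_⟩
  have i1 : Integrable (fun ω => |x ω| ^ p.toReal + |y ω| ^ p.toReal) μ := (hint x).add (hint y)
  have i2 : Integrable (fun ω => (|x ω| ^ p.toReal + |y ω| ^ p.toReal) / 2) μ := i1.div_const 2
  have i3 : Integrable (fun ω => (|x ω| ^ p.toReal + |y ω| ^ p.toReal) / 2 -
      |((1 / 2 : ℝ) • (x + y)) ω| ^ p.toReal) μ := i2.sub (hint _)
  have e : ∫ ω, (ε * (|x ω| ^ p.toReal + |y ω| ^ p.toReal) +
      C * ((|x ω| ^ p.toReal + |y ω| ^ p.toReal) / 2 -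
        |((1 / 2 : ℝ) • (x + y)) ω| ^ p.toReal)) ∂μ =
      ε * (∫ ω, |x ω| ^ p.toReal ∂μ + ∫ ω, |y ω| ^ p.toReal ∂μ) +
        C * ((∫ ω, |x ω| ^ p.toReal ∂μ + ∫ ω, |y ω| ^ p.toReal ∂μ) / 2 -
          ∫ ω, |((1 / 2 : ℝ) • (x + y)) ω| ^ p.toReal ∂μ) := by
    rw [integral_add (i1.const_mul ε) (i3.const_mul C), integral_const_mul, integral_const_mul,
      integral_sub i2 (hint _), integral_div, integral_add (hint x) (hint y)]
  rw [hnorm, hnorm, hnorm, hnorm, ← e]
  refine integral_mono_ae (hint _) ((i1.const_mul ε).add (i3.const_mul C)) ?_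
  filter_upwards [Lp.coeFn_sub x y, Lp.coeFn_add x y, Lp.coeFn_smul (1 / 2 : ℝ) (x + y)]
    with ω h1 h2 h3
  have h4 := hCs (x ω) (y ω)
  have e1 : (x - y) ω = x ω - y ω := by rw [h1]; rfl
  have e2 : ((1 / 2 : ℝ) • (x + y)) ω = (x ω + y ω) / 2 := by
    rw [h3, Pi.smul_apply, h2, Pi.add_apply, smul_eq_mul]; ring
  rw [e1, e2]
  exact h4

/-! ### The main theorem -/

section main

variable {E : Type*} [NormedAddCommGroup E] [NormedSpace ℝ E] [CompleteSpace E]
  [UniformConvexSpace E]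

/-- Uniform version of uniform convexity on balls of radius at most `R`. -/
theorem uc_ball {ε : ℝ} (hε : 0 < ε) {R : ℝ} (hR : 0 < R) : ∃ δ : ℝ, 0 < δ ∧ ∀ r ≤ R,
    ∀ x y : E, ‖x‖ ≤ r → ‖y‖ ≤ r → ε ≤ ‖x - y‖ → ‖x + y‖ ≤ 2 * r - δ := by
  obtain ⟨δ, hδ, h⟩ := exists_forall_closed_ball_dist_add_le_two_sub E (div_pos hε hR)
  refine ⟨δ * (ε / 2), by positivity, fun r hr x y hx hy hxy => ?_⟩
  have hr2 : ε / 2 ≤ r := by
    have := norm_sub_le x y
    linarith
  have hr0 : 0 < r := by linarith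
  have hs : ∀ z : E, ‖r⁻¹ • z‖ = ‖z‖ / r := fun z => by
    rw [norm_smul, norm_inv, Real.norm_of_nonneg hr0.le]; field_simp
  have h1 := h (x := r⁻¹ • x) (by rw [hs, div_le_one hr0]; exact hx) (y := r⁻¹ • y)
    (by rw [hs, div_le_one hr0]; exact hy) (by
      rw [← smul_sub, hs]
      exact div_le_div₀ (norm_nonneg _) hxy hr0 hr)
  rw [← smul_add, hs, div_le_iff₀ hr0] at h1
  nlinarith

/-- Almost minimal elements of a decreasing sequence of bounded convex sets converge. -/
theorem exists_tendsto (C : ℕ → Set E) (hC : Antitone C) (hne : ∀ n, (C n).Nonempty)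
    (hconv : ∀ n, Convex ℝ (C n)) {M : ℝ} (hM : ∀ x ∈ C 0, ‖x‖ ≤ M) :
    ∃ (y : ℕ → E) (c : E), (∀ n, y n ∈ C n) ∧ Tendsto y atTop (𝓝 c) := by
  set d : ℕ → ℝ := fun n => sInf (norm '' C n) with hd
  have hbdd : ∀ n, BddBelow (norm '' C n) := fun n => ⟨0, by
    rintro _ ⟨x, -, rfl⟩; exact norm_nonneg x⟩
  have hne' : ∀ n, (norm '' C n).Nonempty := fun n => (hne n).image _
  have hdle : ∀ n, ∀ x ∈ C n, d n ≤ ‖x‖ := fun n x hx => csInf_le (hbdd n) ⟨x, hx, rfl⟩
  have hd0 : ∀ n, 0 ≤ d n := fun n => le_csInf (hne' n) (by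
    rintro _ ⟨x, -, rfl⟩; exact norm_nonneg x)
  have hdM : ∀ n, d n ≤ M := fun n => by
    obtain ⟨x, hx⟩ := hne n
    exact (hdle n x hx).trans (hM x (hC (Nat.zero_le n) hx))
  have hmono : Monotone d := fun m n hmn =>
    csInf_le_csInf (hbdd m) (hne' n) (image_mono (hC hmn))
  obtain ⟨D, hD⟩ : ∃ D, Tendsto d atTop (𝓝 D) :=
    ⟨_, tendsto_atTop_ciSup hmono ⟨M, by rintro _ ⟨n, rfl⟩; exact hdM n⟩⟩
  have hdD : ∀ n, d n ≤ D := hmono.ge_of_tendsto hD
  have hD0 : 0 ≤ D := (hd0 0).trans (hdD 0)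
  have hy : ∀ n, ∃ y ∈ C n, ‖y‖ < d n + 1 / ((n : ℝ) + 1) := fun n => by
    obtain ⟨_, ⟨y, hy, rfl⟩, hy2⟩ := exists_lt_of_csInf_lt (hne' n)
      (show sInf (norm '' C n) < d n + 1 / ((n : ℝ) + 1) from lt_add_of_pos_right _ (by positivity))
    exact ⟨y, hy, hy2⟩
  choose y hyC hyn using hy
  refine ⟨y, ?_⟩
  have hcau : CauchySeq y := by
    rw [Metric.cauchySeq_iff']
    intro ε hε
    obtain ⟨δ, hδ, h⟩ := uc_ball (E := E) (half_pos hε) (R := D + 1) (by linarith)
    have hlim : Tendsto (fun n : ℕ => 2 * (D + 1 / ((n : ℝ) + 1)) - 2 * d n) atTop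
        (𝓝 (2 * (D + 0) - 2 * D)) :=
      ((tendsto_const_nhds.add tendsto_one_div_add_atTop_nhds_zero_nat).const_mul 2).sub
        (hD.const_mul 2)
    have h0 : 2 * (D + 0) - 2 * D = 0 := by ring
    rw [h0] at hlim
    obtain ⟨N, hN⟩ := (hlim.eventually (gt_mem_nhds hδ)).exists
    refine ⟨N, fun n hn => ?_⟩
    rw [dist_eq_norm]
    by_contra hcon
    push Not at hcon
    have hNn : (1 : ℝ) / ((n : ℝ) + 1) ≤ 1 / ((N : ℝ) + 1) := by
      have : (N : ℝ) ≤ n := by exact_mod_cast hn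
      gcongr
    have h1 : (1 : ℝ) / ((N : ℝ) + 1) ≤ 1 := by
      rw [div_le_one (by positivity)]
      have : (0 : ℝ) ≤ N := Nat.cast_nonneg N
      linarith
    have h2 := h (D + 1 / ((N : ℝ) + 1)) (by linarith) (y n) (y N)
      (by have := hyn n; have := hdD n; linarith) (by have := hyn N; have := hdD N; linarith)
      (by linarith)
    have h3 : (1 / 2 : ℝ) • (y n + y N) ∈ C N := by
      rw [smul_add]
      exact hconv N (hC hn (hyC n)) (hyC N) (by norm_num) (by norm_num) (by norm_num)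
    have h4 := hdle N _ h3
    rw [norm_smul] at h4
    norm_num at h4
    linarith
  obtain ⟨c, hc⟩ := cauchySeq_tendsto_of_complete hcau
  exact ⟨c, hyC, hc⟩

variable [MeasurableSpace E] [BorelSpace E]

/-- Elements of the convex hull are barycentres of probability measures. -/
theorem exists_measure (A : Set E) (F : Set A) (hF : MeasurableSet F) {z : E}
    (hz : z ∈ convexHull ℝ ((↑) '' F : Set E)) :
    ∃ μ : ProbabilityMeasure A, (μ : Measure A) F = 1 ∧ ∫ x : A, (x : E) ∂(μ : Measure A) = z := by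
  let S : Set E := {z | ∃ μ : Measure A, IsProbabilityMeasure μ ∧ μ F = 1 ∧
    Integrable (fun x : A => (x : E)) μ ∧ ∫ x : A, (x : E) ∂μ = z}
  have hS : convexHull ℝ ((↑) '' F : Set E) ⊆ S := by
    refine convexHull_min ?_ ?_
    · rintro _ ⟨x, hx, rfl⟩
      refine ⟨Measure.dirac x, inferInstance, ?_, ?_, ?_⟩
      · rw [Measure.dirac_apply' _ hF, indicator_of_mem hx]; rfl
      · exact integrable_dirac (by simp)
      · rw [integral_dirac]
    · rintro z₁ ⟨μ₁, hμ₁, hF₁, hi₁, rfl⟩ z₂ ⟨μ₂, hμ₂, hF₂, hi₂, rfl⟩ a b ha hb hab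
      have hab' : ENNReal.ofReal a + ENNReal.ofReal b = 1 := by
        rw [← ENNReal.ofReal_add ha hb, hab, ENNReal.ofReal_one]
      refine ⟨ENNReal.ofReal a • μ₁ + ENNReal.ofReal b • μ₂, ⟨?_⟩, ?_, ?_, ?_⟩
      · simp [hab']
      · simp [hF₁, hF₂, hab']
      · exact (hi₁.smul_measure ENNReal.ofReal_ne_top).add_measure
          (hi₂.smul_measure ENNReal.ofReal_ne_top)
      · rw [integral_add_measure (hi₁.smul_measure ENNReal.ofReal_ne_top)
          (hi₂.smul_measure ENNReal.ofReal_ne_top), integral_smul_measure, integral_smul_measure,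
          ENNReal.toReal_ofReal ha, ENNReal.toReal_ofReal hb]
  obtain ⟨μ, hμ, h1, -, h2⟩ := hS hz
  exact ⟨⟨μ, hμ⟩, h1, h2⟩

/-- In a uniformly convex Banach space, closed bounded convex `μ`-compact sets are compact. -/
theorem isCompact_of_isMuCompact {A : Set E} (hcl : IsClosed A) (hb : Bornology.IsBounded A)
    (hconv : Convex ℝ A) (hA : IsMuCompact A) : IsCompact A := by
  by_contra hnc
  have htb : ¬ TotallyBounded A := fun h =>
    hnc (isCompact_iff_totallyBounded_isComplete.mpr ⟨h, hcl.isComplete⟩)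
  rw [Metric.totallyBounded_iff] at htb
  push Not at htb
  obtain ⟨δ, hδ, h⟩ := htb
  -- a separated sequence
  obtain ⟨x, hx⟩ : ∃ x : ℕ → A, ∀ m n, m < n → δ ≤ dist (x m) (x n) := by
    obtain ⟨x, -, hx⟩ := exists_seq_of_forall_finset_exists (fun _ : A => True)
      (fun a b => δ ≤ dist a b) (fun s _ => by
        have h1 := h ((↑) '' (s : Set A)) ((s.finite_toSet).image _)
        obtain ⟨y, hy, hy2⟩ := not_subset.mp h1
        refine ⟨⟨y, hy⟩, trivial, fun z hz => ?_⟩
        by_contra hcon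
        push Not at hcon
        apply hy2
        refine mem_iUnion₂.mpr ⟨z, mem_image_of_mem _ hz, ?_⟩
        rw [Metric.mem_ball, dist_comm]
        exact hcon)
    exact ⟨x, hx⟩
  have hinj : ∀ m n, m ≠ n → δ ≤ dist (x m) (x n) := fun m n hmn => by
    rcases lt_or_gt_of_ne hmn with h1 | h1
    · exact hx m n h1
    · rw [dist_comm]; exact hx n m h1
  let F : ℕ → Set A := fun n => x '' Ici n
  have hFcl : ∀ n, IsClosed (F n) := fun n => by
    refine Metric.isClosed_of_pairwise_le_dist hδ ?_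
    rintro _ ⟨m, -, rfl⟩ _ ⟨k, -, rfl⟩ hne
    exact hinj m k fun h1 => hne (by rw [h1])
  have hFanti : Antitone F := fun m n hmn => image_mono (Ici_subset_Ici.mpr hmn)
  have hFempty : ⋂ n, F n = ∅ := by
    refine eq_empty_of_forall_notMem fun z hz => ?_
    rw [mem_iInter] at hz
    obtain ⟨m, -, rfl⟩ := hz 0
    obtain ⟨k, hk, hk2⟩ := hz (m + 1)
    have h1 : k ≠ m := by
      have : m + 1 ≤ k := hk
      omega
    have h2 := hinj k m h1
    rw [hk2, dist_self] at h2
    linarith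
  obtain ⟨M, hM⟩ := isBounded_iff_forall_norm_le.mp hb
  have hsub : ∀ n, convexHull ℝ ((↑) '' F n : Set E) ⊆ A := fun n =>
    convexHull_min (by rintro _ ⟨z, -, rfl⟩; exact z.2) hconv
  obtain ⟨y, c, hy, hyc⟩ := exists_tendsto (fun n => convexHull ℝ ((↑) '' F n : Set E))
    (fun m n hmn => convexHull_mono (image_mono (hFanti hmn)))
    (fun n => by
      refine ⟨(x n : E), subset_convexHull ℝ _ ?_⟩
      exact mem_image_of_mem _ (mem_image_of_mem x (mem_Ici.mpr le_rfl)))
    (fun n => convex_convexHull ℝ _) (M := M) (fun z hz => hM z (hsub 0 hz))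
  have hcA : c ∈ A := hcl.mem_of_tendsto hyc (Eventually.of_forall fun n => hsub n (hy n))
  choose μ hμF hμy using fun n => exists_measure A (F n) (hFcl n).measurableSet (hy n)
  have hK := hA (insert c (range y)) (insert_subset hcA (by
    rintro _ ⟨n, rfl⟩; exact hsub n (hy n))) hyc.isCompact_insert_range
  -- a cluster point
  have hmem : ∀ n, μ n ∈ {μ : ProbabilityMeasure A |
      ∫ x : A, (x : E) ∂(μ : Measure A) ∈ insert c (range y)} := fun n => by
    rw [mem_ofPred_eq, hμy n]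
    exact mem_insert_of_mem _ (mem_range_self n)
  obtain ⟨ν, -, hν⟩ := hK.ultrafilter_le_nhds ((hyperfilter ℕ).map μ) (by
    rw [le_principal_iff]
    exact mem_map.mpr (univ_mem' hmem))
  have hlim : Tendsto μ (hyperfilter ℕ : Filter ℕ) (𝓝 ν) := hν
  have hνF : ∀ n, (1 : ℝ≥0∞) ≤ (ν : Measure A) (F n) := by
    intro n
    have h1 := ProbabilityMeasure.limsup_measure_closed_le_of_tendsto hlim (hFcl n)
    refine le_trans ?_ h1
    have h2 : ∀ᶠ k in (hyperfilter ℕ : Filter ℕ), (1 : ℝ≥0∞) ≤ (μ k : Measure A) (F n) := by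
      have h3 : ∀ᶠ k in (atTop : Filter ℕ), (1 : ℝ≥0∞) ≤ (μ k : Measure A) (F n) := by
        filter_upwards [eventually_ge_atTop n] with k hk
        rw [← hμF k]
        exact measure_mono (hFanti hk)
      exact Nat.hyperfilter_le_atTop h3
    exact le_limsup_of_frequently_le h2.frequently
  have hzero : Tendsto (fun n => (ν : Measure A) (F n)) atTop (𝓝 ((ν : Measure A) (⋂ n, F n))) :=
    tendsto_measure_iInter_atTop (fun n => (hFcl n).measurableSet.nullMeasurableSet) hFanti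
      ⟨0, measure_ne_top _ _⟩
  rw [hFempty, measure_empty] at hzero
  have := ge_of_tendsto' hzero hνF
  exact absurd this (by simp)

end main

/-- **Result.** Let `1 < p < ∞`. In `ℓ_p` and in `L_p[0,1]` every `μ`-compact closed bounded convex
set is norm compact. -/
theorem result (p : ℝ≥0∞) [Fact (1 ≤ p)] (hp1 : 1 < p) (hp : p ≠ ∞) :
    MuCompactSetsCompact (EllP p) ∧ MuCompactSetsCompact (LP p) := by
  have := uniformConvex_lp p hp1 hp
  have := uniformConvex_Lp (volume.restrict (Icc (0 : ℝ) 1)) p hp1 hp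
  exact ⟨fun _ _ A _ h1 h2 h3 h4 => isCompact_of_isMuCompact h1 h2 h3 h4,
    fun _ _ A _ h1 h2 h3 h4 => isCompact_of_isMuCompact h1 h2 h3 h4⟩

end Pool.Agent.Results.MP_5b7a98_an.MuCompact
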